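import Pool.Agent.helper61.CSW.W.SpecW
import Pool.Agent.helper39.CSS.LUQ

/-!
# csw:FXG (MP_70a088_an, class S, block W): the logarithmic branches tend to infinity (helper13)
-/

set_option autoImplicit false

open Complex Metric Set Filter Topology MeasureTheory
open YPPS (fd fdd pre TT CV IsCyc rho Exact)
open MPS (BB)
open Pool.Agent.helper98.ILF (juliaSet fatouSet)

noncomputable section

open CSS (SE SV JJ)

namespace YW

/-- a branch of the logarithm near `ω`. -/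
theorem FXG_log (ω : ℂ) (hω : ω ≠ 0) (w : ℂ) (hw : ‖w - ω‖ < ‖ω‖ / 2) :
    Complex.exp (Complex.log ω + Complex.log (w / ω)) = w ∧ ‖Complex.log (w / ω)‖ ≤ 3 / 4 ∧
      ContinuousAt (fun w => Complex.log ω + Complex.log (w / ω)) w := by
  have hωp : 0 < ‖ω‖ := norm_pos_iff.2 hω
  have h1 : w / ω = 1 + (w - ω) / ω := by field_simp; ring
  have h2 : ‖(w - ω) / ω‖ ≤ 1 / 2 := by
    rw [norm_div, div_le_iff₀ hωp]
    linarith
  have hw0 : w ≠ 0 := by
    intro h0
    rw [h0, zero_sub, norm_neg] at hw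
    linarith
  refine ⟨?_, ?_, ?_⟩
  · rw [Complex.exp_add, Complex.exp_log hω, Complex.exp_log (div_ne_zero hw0 hω)]
    field_simp
  · rw [h1]
    refine (Complex.norm_log_one_add_half_le_self h2).trans ?_
    linarith
  · refine continuousAt_const.add (ContinuousAt.clog (continuousAt_id.div_const ω) ?_)
    show w / ω ∈ slitPlane
    rw [h1]
    apply mem_slitPlane_of_norm_lt_one
    linarith

theorem FXG_local (f : SE) (R : ℝ) (G : ℂ → ℂ) (hRA : CSS.RA f R) (hG : CSS.LG f R G) (z₀ : ℂ)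
    (hz₀ : Real.exp (Real.log R + 1) ≤ ‖f.eval z₀‖) :
    ∃ N ∈ 𝓝 z₀, Bornology.IsBounded {W : ℂ | Real.log R + 1 ≤ W.re ∧ Complex.exp (G W) ∈ N} := by
  have hR0 : 0 < R := by linarith [hRA.one]
  set ω : ℂ := f.eval z₀ with hω
  have hRω : R < ‖ω‖ := by
    refine lt_of_lt_of_le ?_ hz₀
    rw [Real.exp_add, Real.exp_log hR0]
    have h1 : (1 : ℝ) < Real.exp 1 := Real.one_lt_exp_iff.2 one_pos
    nlinarith
  have hω0 : ω ≠ 0 := by
    rw [← norm_pos_iff]
    linarith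
  -- `ω` is not singular
  have hns : ∀ w : ℂ, R < ‖w‖ → w ∉ CSS.sing f.f := by
    intro w hw hs
    have := hRA.sg w hs
    linarith
  have hd : deriv f.f z₀ ≠ 0 := by
    intro h0
    exact hns ω hRω (Or.inl ⟨z₀, h0, rfl⟩)
  have h1 : ContDiffAt ℂ 1 f.f z₀ := (f.dif.contDiff (n := 1)).contDiffAt
  have h2 : HasStrictDerivAt f.f (deriv f.f z₀) z₀ := h1.hasStrictDerivAt one_ne_zero
  have h3 := h2.hasStrictFDerivAt_equiv hd
  set e := h3.toOpenPartialHomeomorph f.f with he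
  have hez : z₀ ∈ e.source := h3.mem_toOpenPartialHomeomorph_source
  have hcoe : ∀ z, e z = f.f z := fun z => by rw [he, h3.toOpenPartialHomeomorph_coe]
  have het : ω ∈ e.target := by
    have h4 := e.map_source hez
    rwa [hcoe] at h4
  -- the disc
  obtain ⟨δ₁, hδ₁, hδ₁t⟩ := Metric.isOpen_iff.1 e.open_target ω het
  obtain ⟨δ, hδ, hδ1, hδ2, hδ3⟩ : ∃ δ > (0 : ℝ), δ ≤ δ₁ ∧ δ ≤ ‖ω‖ / 2 ∧ δ ≤ ‖ω‖ - R :=
    ⟨min δ₁ (min (‖ω‖ / 2) (‖ω‖ - R)), lt_min hδ₁ (lt_min (by linarith [norm_pos_iff.2 hω0]) (by linarith)), min_le_left _ _,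
      (min_le_right _ _).trans (min_le_left _ _), (min_le_right _ _).trans (min_le_right _ _)⟩
  have hDR : ∀ w ∈ ball ω δ, R < ‖w‖ := by
    intro w hw
    rw [mem_ball, dist_eq_norm] at hw
    have h4 : ‖ω‖ ≤ ‖w‖ + ‖w - ω‖ := by
      have h5 : ω = w - (w - ω) := by ring
      calc ‖ω‖ = ‖w - (w - ω)‖ := by rw [← h5]
        _ ≤ ‖w‖ + ‖w - ω‖ := norm_sub_le _ _
    linarith
  have hDt : ball ω δ ⊆ e.target := (ball_subset_ball hδ1).trans hδ₁t
  have hlog : ∀ w ∈ ball ω δ, Complex.exp (Complex.log ω + Complex.log (w / ω)) = w ∧ ‖Complex.log (w / ω)‖ ≤ 3 / 4 ∧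
      ContinuousAt (fun w => Complex.log ω + Complex.log (w / ω)) w := by
    intro w hw
    rw [mem_ball, dist_eq_norm] at hw
    exact FXG_log ω hω0 w (by linarith)
  set L : ℂ → ℂ := fun w => Complex.log ω + Complex.log (w / ω) with hL
  have hHR : ∀ w ∈ ball ω δ, ∀ n : ℤ, L w + n * (2 * Real.pi * I) ∈ CSS.HR R := by
    intro w hw n
    show Real.log R < (L w + n * (2 * Real.pi * I)).re
    have h4 : (L w + n * (2 * Real.pi * I)).re = (L w).re := by simp
    rw [h4]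
    have h5 : Real.exp (L w).re = ‖w‖ := by
      rw [← Complex.norm_exp]
      exact congrArg norm (hlog w hw).1
    rw [← Real.exp_lt_exp, Real.exp_log hR0, h5]
    exact hDR w hw
  have hexpL : ∀ w ∈ ball ω δ, ∀ n : ℤ, Complex.exp (L w + n * (2 * Real.pi * I)) = w := by
    intro w hw n
    rw [Complex.exp_add, Complex.exp_int_mul_two_pi_mul_I, mul_one]
    exact (hlog w hw).1
  -- the lifts
  have hlift : ∀ (n : ℤ) (w₁ : ℂ), w₁ ∈ ball ω δ → Complex.exp (G (L w₁ + n * (2 * Real.pi * I))) = e.symm w₁ →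
      ∀ w ∈ ball ω δ, Complex.exp (G (L w + n * (2 * Real.pi * I))) = e.symm w := by
    intro n w₁ hw₁ hE
    have h4 : ∀ w ∈ ball ω δ, f.eval (Complex.exp (G (L w + n * (2 * Real.pi * I)))) = w := by
      intro w hw
      rw [hG.eq _ (hHR w hw n), hexpL w hw n]
    have h5 : ∀ w ∈ ball ω δ, f.eval (e.symm w) = w := by
      intro w hw
      have h6 := e.right_inv (hDt hw)
      rwa [hcoe] at h6
    refine CSS.LUQ f (ball ω δ) (fun w => Complex.exp (G (L w + n * (2 * Real.pi * I)))) (fun w => e.symm w)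
      (convex_ball ω δ).isPreconnected ?_ ?_ ?_ ?_ ⟨w₁, hw₁, hE⟩
    · refine Complex.continuous_exp.comp_continuousOn (hG.dif.continuousOn.comp ?_ (fun w hw => hHR w hw n))
      intro w hw
      exact ((hlog w hw).2.2.add continuousAt_const).continuousWithinAt
    · exact e.continuousOn_symm.mono hDt
    · intro w hw
      rw [h4 w hw, h5 w hw]
    · intro w hw
      rw [h4 w hw]
      exact hns w (hDR w hw)
  have hfc : Continuous f.f := f.dif.continuous
  refine ⟨e.source ∩ f.f ⁻¹' ball ω δ, Filter.inter_mem (e.open_source.mem_nhds hez)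
    (hfc.continuousAt.preimage_mem_nhds (ball_mem_nhds ω hδ)), ?_⟩
  -- two points
  have hpt : ∀ W : ℂ, Real.log R + 1 ≤ W.re → Complex.exp (G W) ∈ e.source ∩ f.f ⁻¹' ball ω δ →
      ∃ n : ℤ, W = L (Complex.exp W) + n * (2 * Real.pi * I) ∧ Complex.exp W ∈ ball ω δ ∧
        Complex.exp (G (L ω + n * (2 * Real.pi * I))) = e.symm ω := by
    intro W hW hN
    have hWH : W ∈ CSS.HR R := by
      show Real.log R < W.re
      linarith
    have hfz : f.f (Complex.exp (G W)) = Complex.exp W := hG.eq W hWH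
    have hwb : Complex.exp W ∈ ball ω δ := by
      rw [← hfz]
      exact hN.2
    obtain ⟨n, hn⟩ := Complex.exp_eq_exp_iff_exists_int.1 ((hlog _ hwb).1.symm)
    refine ⟨n, hn, hwb, hlift n (Complex.exp W) hwb ?_ ω (mem_ball_self hδ)⟩
    have h4 : L (Complex.exp W) + n * (2 * Real.pi * I) = W := hn.symm
    rw [h4]
    have h5 := e.left_inv hN.1
    rw [hcoe, hfz] at h5
    exact h5.symm
  rw [Metric.isBounded_iff]
  refine ⟨3 / 2, ?_⟩
  rintro W₁ ⟨hW₁, hN₁⟩ W₂ ⟨hW₂, hN₂⟩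
  obtain ⟨n₁, e1, b1, c1⟩ := hpt W₁ hW₁ hN₁
  obtain ⟨n₂, e2, b2, c2⟩ := hpt W₂ hW₂ hN₂
  have h4 := hG.inj (hHR ω (mem_ball_self hδ) n₁) (hHR ω (mem_ball_self hδ) n₂) (c1.trans c2.symm)
  rw [dist_eq_norm]
  have h5 : W₁ - W₂ = Complex.log (Complex.exp W₁ / ω) - Complex.log (Complex.exp W₂ / ω) := by
    have h6 : (n₁ : ℂ) * (2 * Real.pi * I) = n₂ * (2 * Real.pi * I) := add_left_cancel h4
    have h7 : W₁ - W₂ = (L (Complex.exp W₁) + n₁ * (2 * Real.pi * I)) - (L (Complex.exp W₂) + n₂ * (2 * Real.pi * I)) := by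
      rw [← e1, ← e2]
    rw [h7, h6, hL]
    ring
  rw [h5]
  refine (norm_sub_le _ _).trans ?_
  have h8 := (hlog _ b1).2.1
  have h9 := (hlog _ b2).2.1
  linarith

theorem FXG : FXG_stmt := by
  intro f R G hRA hG B
  have hR0 : 0 < R := by linarith [hRA.one]
  have hfc : Continuous f.f := f.dif.continuous
  set K : Set ℂ := closedBall 0 (Real.exp B) ∩ {z | Real.exp (Real.log R + 1) ≤ ‖f.f z‖} with hK
  have hKc : IsCompact K := (isCompact_closedBall _ _).inter_right (isClosed_le continuous_const hfc.norm)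
  have hb : Bornology.IsBounded {W : ℂ | Real.log R + 1 ≤ W.re ∧ Complex.exp (G W) ∈ K} := by
    refine hKc.induction_on (p := fun s => Bornology.IsBounded {W : ℂ | Real.log R + 1 ≤ W.re ∧ Complex.exp (G W) ∈ s}) ?_ ?_ ?_ ?_
    · simp
    · intro s t hst ht
      exact ht.subset fun W hW => ⟨hW.1, hst hW.2⟩
    · intro s t hs ht
      refine (hs.union ht).subset ?_
      rintro W ⟨hW, h1 | h1⟩
      · exact Or.inl ⟨hW, h1⟩
      · exact Or.inr ⟨hW, h1⟩
    · intro z hz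
      obtain ⟨N, hN, hNb⟩ := FXG_local f R G hRA hG z hz.2
      exact ⟨N, mem_nhdsWithin_of_mem_nhds hN, hNb⟩
  obtain ⟨ρ, hρ⟩ := hb.subset_ball (0 : ℂ)
  refine ⟨ρ, fun W hW hWρ => ?_⟩
  by_contra hcon
  push Not at hcon
  have h1 : Complex.exp (G W) ∈ K := by
    refine ⟨?_, ?_⟩
    · rw [mem_closedBall_zero_iff, Complex.norm_exp]
      exact Real.exp_le_exp.2 hcon.le
    · show Real.exp (Real.log R + 1) ≤ ‖f.f (Complex.exp (G W))‖
      have h2 : f.f (Complex.exp (G W)) = Complex.exp W := hG.eq W (by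
        show Real.log R < W.re
        linarith)
      rw [h2, Complex.norm_exp]
      exact Real.exp_le_exp.2 hW
  have h3 := hρ (show W ∈ {W : ℂ | Real.log R + 1 ≤ W.re ∧ Complex.exp (G W) ∈ K} from ⟨hW, h1⟩)
  rw [mem_ball_zero_iff] at h3
  linarith

end YW
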